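import Mathlib
import Pool.Agent.W806.PC.Reader

/-!
# Purely catalytic P systems with two catalysts are universal

Every recursively enumerable set of natural numbers is generated by a purely catalytic P system
with one membrane and two catalysts.

Idea. The system stores one number `n` as `n` objects `x`, and simulates a machine that reads its
input `x^n` unit by unit, writing objects `q`, and at the end of the input turns what was written
into the new input. There is one control object. All objects except `x`, `q` (served only by the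
first catalyst) and `y` (served only by the second one) produce a trap object when served by the
wrong catalyst, so a control object of the first catalyst must be served at once if the second
catalyst has nothing else to do, and conversely; this makes the reading of one unit reliable. The
end of the input is tested as follows: the control waits, as an object of the second catalyst,
while the first catalyst spends 4 steps on each `q`, the second catalyst then spends 4 steps on it
and makes it a `y`; later the second catalyst spends 4 steps on each `y`, and then the first one 4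
steps, to get an `x`. The second catalyst is never idle. So the difference of the work loads of the
two catalysts is known when the control leaves the test, and it follows that the first catalyst has
been idle exactly once and has never served an input unit `x` (this would increase the difference
by 2). At the moment when it was idle there was no `x`, so the input was empty. If anything is left
when the control leaves the test, the second catalyst has work during all the steps of a chain of 6
objects of the first catalyst, and so the surplus of work for the first catalyst becomes too big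
ever to disappear.
-/

set_option autoImplicit false

namespace Pool.Agent.Results.MP_1dfda1_lc.TwoCatalystsUniversal

/-! ## P systems -/

/-- Targets of produced objects. -/
inductive Tar
  /-- the object stays in the region -/
  | here
  /-- the object goes to the surrounding region (to the environment from the skin) -/
  | out
  /-- the object enters a nondeterministically chosen child membrane -/
  | inn

/-- A rule: `cat = none` is the noncooperative rule `lhs → rhs`, and `cat = some c` is the
catalytic rule `c lhs → c rhs`. The objects of `rhs` carry targets. -/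
structure Rule (O : Type) where
  cat : Option O
  lhs : O
  rhs : Multiset (O × Tar)

/-- The catalyst used by a rule, which stays in its region (nothing for a noncooperative rule). -/
def Rule.catalyst {O : Type} (r : Rule O) : Multiset O :=
  match r.cat with
  | none => 0
  | some c => {c}

/-- The left-hand side of a rule, as a multiset: the objects occupied by one use of the rule. -/
def Rule.left {O : Type} (r : Rule O) : Multiset O := r.catalyst + {r.lhs}

open Classical in
/-- The objects with target `t` on the right-hand side. -/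
noncomputable def Rule.made {O : Type} (r : Rule O) (t : Tar) : Multiset O :=
  (r.rhs.filter fun p => p.2 = t).map Prod.fst

/-- Total left-hand side of a multiset of rules: the objects occupied by its use. -/
def left {O : Type} (U : Multiset (Rule O)) : Multiset O := (U.map Rule.left).sum

/-- The catalysts used by a multiset of rules. -/
def cats {O : Type} (U : Multiset (Rule O)) : Multiset O := (U.map Rule.catalyst).sum

/-- The objects with target `t` produced by a multiset of rules. -/
noncomputable def made {O : Type} (U : Multiset (Rule O)) (t : Tar) : Multiset O :=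
  (U.map fun r => r.made t).sum

/-- A cell-like P system with noncooperative and catalytic rules. -/
structure PSystem where
  /-- the alphabet of objects -/
  Obj : Type
  finObj : Finite Obj
  /-- the catalysts -/
  Cat : Set Obj
  /-- the membranes, identified with their regions -/
  Mem : Type
  finMem : Fintype Mem
  /-- the root of the membrane structure -/
  skin : Mem
  /-- the membrane immediately outside -/
  parent : Mem → Option Mem
  parent_eq_none : ∀ h, parent h = none ↔ h = skin
  /-- every membrane lies (directly or not) inside the skin -/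
  nested : ∀ h, ∃ n, (fun x : Option Mem => x.bind parent)^[n] (some h) = none
  /-- the initial contents of the regions -/
  init : Mem → Multiset Obj
  /-- the rules of the regions -/
  rules : Mem → Set (Rule Obj)
  finRules : ∀ h, (rules h).Finite
  /-- left- and right-hand sides (apart from the catalyst of a catalytic rule) have no catalysts -/
  rules_ok : ∀ h, ∀ r ∈ rules h,
    r.lhs ∉ Cat ∧ (∀ c, r.cat = some c → c ∈ Cat) ∧ ∀ p ∈ r.rhs, p.1 ∉ Cat
  /-- the output region; `none` is the environment -/
  iout : Option Mem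
  iout_elementary : ∀ h, iout = some h → ∀ h', parent h' ≠ some h

attribute [instance] PSystem.finObj PSystem.finMem

namespace PSystem

variable (P : PSystem)

/-- A P system is purely catalytic if every rule in every region is catalytic. -/
def PurelyCatalytic : Prop := ∀ h, ∀ r ∈ P.rules h, r.cat ≠ none

/-- The degree: the number of membranes. -/
def degree : ℕ := Fintype.card P.Mem

open Classical in
/-- The number of catalyst objects in the initial configuration. -/
noncomputable def numCat : ℕ := ∑ h, (P.init h).countP (· ∈ P.Cat)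

/-- A configuration: the contents of the regions, and the objects sent to the environment. -/
structure Config where
  reg : P.Mem → Multiset P.Obj
  env : Multiset P.Obj

/-- The rule `r` can be used in region `h`: it is a rule of `h`, and if it has a target `in`, the
membrane `h` has a child. -/
def Usable (h : P.Mem) (r : Rule P.Obj) : Prop :=
  r ∈ P.rules h ∧ ((∃ p ∈ r.rhs, p.2 = Tar.inn) → ∃ h', P.parent h' = some h)

open Classical in
/-- One step. In each region `h` the multiset `U h` of usable rules is used, `rest h` is the part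
of the contents not occupied by `U h`, and `U h` is maximal: no further use of a usable rule can
be added. The objects with target `in` produced in `h` are distributed among the children of `h`,
`down h'` being the multiset of those that enter `h'`. -/
def Step (Γ Δ : P.Config) : Prop :=
  ∃ (U : P.Mem → Multiset (Rule P.Obj)) (rest down : P.Mem → Multiset P.Obj),
    (∀ h, ∀ r ∈ U h, P.Usable h r) ∧
    (∀ h, Γ.reg h = left (U h) + rest h) ∧
    (∀ h, ∀ r, P.Usable h r → ¬ r.left ≤ rest h) ∧
    down P.skin = 0 ∧
    (∀ h, (∑ h', if P.parent h' = some h then down h' else 0) = made (U h) Tar.inn) ∧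
    (∀ h, Δ.reg h = rest h + cats (U h) + made (U h) Tar.here +
      (∑ h', if P.parent h' = some h then made (U h') Tar.out else 0) + down h) ∧
    Δ.env = Γ.env + made (U P.skin) Tar.out

/-- A configuration is halting if no rule is applicable. -/
def Halting (Γ : P.Config) : Prop := ∀ h, ∀ r, P.Usable h r → ¬ r.left ≤ Γ.reg h

/-- The initial configuration. -/
def start : P.Config := ⟨P.init, 0⟩

/-- The result read from a configuration. -/
def value (Γ : P.Config) : ℕ :=
  match P.iout with
  | some h => Multiset.card (Γ.reg h)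
  | none => Multiset.card Γ.env

/-- The set of results of all successful computations. -/
def N : Set ℕ := {n | ∃ H, Relation.ReflTransGen P.Step P.start H ∧ P.Halting H ∧ P.value H = n}

end PSystem

/-! ## The purely catalytic system with two catalysts of a system with two hands -/

open Pool.Agent.W806.PC

/-- the objects: two catalysts, the output object, and other objects -/
inductive Obj (O : Type)
  | c1
  | c2
  | res
  | ob (o : O)

instance finite_obj {O : Type} [Finite O] : Finite (Obj O) := by
  have : Function.Injective (fun p : Obj O => match p with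
      | .c1 => (Sum.inl 0 : Fin 3 ⊕ O)
      | .c2 => Sum.inl 1
      | .res => Sum.inl 2
      | .ob o => Sum.inr o) := by
    intro p q h
    cases p <;> cases q <;> simp_all
  exact Finite.of_injective _ this

section Link

variable {O : Type} (A B : O → Multiset O → ℕ → Prop)

/-- right-hand side with targets -/
def rhs (v : Multiset O) (i : ℕ) : Multiset (Obj O × Tar) :=
  v.map (fun o => (Obj.ob o, Tar.here)) + Multiset.replicate i (Obj.res, Tar.out)

/-- rules of the first catalyst -/
def rlA : Set (Rule (Obj O)) := {r | ∃ a v i, A a v i ∧ r = ⟨some .c1, .ob a, rhs v i⟩}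

/-- rules of the second catalyst -/
def rlB : Set (Rule (Obj O)) := {r | ∃ a v i, B a v i ∧ r = ⟨some .c2, .ob a, rhs v i⟩}

/-- the P system -/
def psys [Finite O] (hA : (rlA A).Finite) (hB : (rlB B).Finite) (M : Multiset O) : PSystem where
  Obj := Obj O
  finObj := inferInstance
  Cat := {.c1, .c2}
  Mem := Unit
  finMem := inferInstance
  skin := ()
  parent _ := none
  parent_eq_none _ := by simp
  nested _ := ⟨1, rfl⟩
  init _ := .c1 ::ₘ .c2 ::ₘ M.map .ob
  rules _ := rlA A ∪ rlB B
  finRules _ := hA.union hB
  rules_ok := by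
    rintro _ r (⟨a, v, i, _, rfl⟩ | ⟨a, v, i, _, rfl⟩)
    · refine ⟨by simp, by simp, ?_⟩
      intro p hp
      simp only [rhs, Multiset.mem_add, Multiset.mem_map, Multiset.mem_replicate] at hp
      rcases hp with ⟨o, _, rfl⟩ | ⟨_, rfl⟩ <;> simp
    · refine ⟨by simp, by simp, ?_⟩
      intro p hp
      simp only [rhs, Multiset.mem_add, Multiset.mem_map, Multiset.mem_replicate] at hp
      rcases hp with ⟨o, _, rfl⟩ | ⟨_, rfl⟩ <;> simp
  iout := none
  iout_elementary _ h := by cases h

theorem made_here (c : Option (Obj O)) (a : Obj O) (v : Multiset O) (i : ℕ) :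
    (⟨c, a, rhs v i⟩ : Rule (Obj O)).made .here = v.map .ob := by
  classical
  unfold Rule.made
  simp only [rhs, Multiset.filter_add, Multiset.filter_map, Multiset.map_add, Multiset.map_map]
  have h1 : (Multiset.replicate i ((Obj.res : Obj O), Tar.out)).filter (fun p => p.2 = Tar.here)
      = 0 := by
    rw [Multiset.filter_eq_nil]
    intro p hp
    rw [Multiset.eq_of_mem_replicate hp]
    simp
  rw [h1]
  simp

theorem made_out (c : Option (Obj O)) (a : Obj O) (v : Multiset O) (i : ℕ) :
    (⟨c, a, rhs v i⟩ : Rule (Obj O)).made .out = Multiset.replicate i .res := by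
  classical
  unfold Rule.made
  simp only [rhs, Multiset.filter_add, Multiset.filter_map, Multiset.map_add, Multiset.map_map]
  have h1 : (Multiset.replicate i ((Obj.res : Obj O), Tar.out)).filter (fun p => p.2 = Tar.out)
      = Multiset.replicate i ((Obj.res : Obj O), Tar.out) := by
    rw [Multiset.filter_eq_self]
    intro p hp
    rw [Multiset.eq_of_mem_replicate hp]
  rw [h1]
  simp

theorem made_inn (c : Option (Obj O)) (a : Obj O) (v : Multiset O) (i : ℕ) :
    (⟨c, a, rhs v i⟩ : Rule (Obj O)).made .inn = 0 := by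
  classical
  unfold Rule.made
  simp only [rhs, Multiset.filter_add, Multiset.filter_map, Multiset.map_add, Multiset.map_map]
  have h1 : (Multiset.replicate i ((Obj.res : Obj O), Tar.out)).filter (fun p => p.2 = Tar.inn)
      = 0 := by
    rw [Multiset.filter_eq_nil]
    intro p hp
    rw [Multiset.eq_of_mem_replicate hp]
    simp
  rw [h1]
  simp

theorem no_inn {r : Rule (Obj O)} (hr : r ∈ rlA A ∪ rlB B) : ¬ ∃ p ∈ r.rhs, p.2 = Tar.inn := by
  rintro ⟨p, hp, hpi⟩
  rcases hr with ⟨a, v, i, _, rfl⟩ | ⟨a, v, i, _, rfl⟩ <;>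
  · simp only [rhs, Multiset.mem_add, Multiset.mem_map, Multiset.mem_replicate] at hp
    rcases hp with ⟨o, _, rfl⟩ | ⟨_, rfl⟩ <;> cases hpi

/-- one step of a system with one region -/
def Step1 (reg env reg' env' : Multiset (Obj O)) : Prop :=
  ∃ (U : Multiset (Rule (Obj O))) (rest : Multiset (Obj O)),
    (∀ r ∈ U, r ∈ rlA A ∪ rlB B) ∧ reg = left U + rest ∧ (∀ r ∈ rlA A ∪ rlB B, ¬ r.left ≤ rest) ∧
    0 = made U Tar.inn ∧ reg' = rest + cats U + made U Tar.here ∧ env' = env + made U Tar.out

theorem step1_iff [Finite O] (hA : (rlA A).Finite) (hB : (rlB B).Finite) (M : Multiset O)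
    (Γ Δ : (psys A B hA hB M).Config) :
    (psys A B hA hB M).Step Γ Δ ↔ Step1 A B (Γ.reg ()) Γ.env (Δ.reg ()) Δ.env := by
  constructor
  · rintro ⟨U, rest, down, h1, h2, h3, h4, h5, h6, h7⟩
    refine ⟨U (), rest (), fun r hr => (h1 () r hr).1, h2 (), ?_, ?_, ?_, h7⟩
    · intro r hr
      exact h3 () r ⟨hr, fun h => absurd h (no_inn A B hr)⟩
    · have h8 := h5 ()
      rw [Finset.sum_eq_zero (fun x _ => if_neg (by simp [psys]))] at h8
      exact h8
    · have h8 := h6 ()
      rw [Finset.sum_eq_zero (fun x _ => if_neg (by simp [psys]))] at h8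
      have h9 : down () = 0 := h4
      rw [h9, add_zero, add_zero] at h8
      exact h8
  · rintro ⟨U, rest, h1, h2, h3, h4, h5, h6⟩
    refine ⟨fun _ => U, fun _ => rest, fun _ => 0, ?_, fun _ => h2, ?_, rfl, ?_, ?_, h6⟩
    · intro _ r hr
      exact ⟨h1 r hr, fun h => absurd h (no_inn A B (h1 r hr))⟩
    · intro _ r hr
      exact h3 r hr.1
    · intro _
      rw [Finset.sum_eq_zero (fun x _ => if_neg (by simp [psys]))]
      exact h4
    · intro _
      rw [Finset.sum_eq_zero (fun x _ => if_neg (by simp [psys]))]
      have h9 : Δ.reg () = rest + cats U + made U Tar.here := h5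
      simp only [add_zero]
      exact h9

/-- contents of the region -/
def rg (M : Multiset O) : Multiset (Obj O) := .c1 ::ₘ .c2 ::ₘ M.map .ob

/-- contents of the environment -/
def en (k : ℕ) : Multiset (Obj O) := Multiset.replicate k .res

theorem left_mk (c : Obj O) (a : Obj O) (w : Multiset (Obj O × Tar)) :
    (⟨some c, a, w⟩ : Rule (Obj O)).left = {c} + {a} := rfl

theorem map_ob_cons {M : Multiset O} {b : Obj O} {R : Multiset (Obj O)}
    (h : M.map Obj.ob = b ::ₘ R) : ∃ b' R', b = .ob b' ∧ M = b' ::ₘ R' ∧ R = R'.map .ob := by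
  classical
  obtain ⟨a, ha, h1, h2⟩ := Multiset.map_eq_cons _ _ _ _ |>.2 h
  exact ⟨a, M.erase a, h1.symm, (Multiset.cons_erase ha).symm, h2.symm⟩

theorem left_cons (r : Rule (Obj O)) (U : Multiset (Rule (Obj O))) :
    left (r ::ₘ U) = r.left + left U := by simp [left]

theorem left_nil : left (0 : Multiset (Rule (Obj O))) = 0 := rfl

theorem cats_cons (r : Rule (Obj O)) (U : Multiset (Rule (Obj O))) :
    cats (r ::ₘ U) = r.catalyst + cats U := by simp [cats]

theorem cats_nil : cats (0 : Multiset (Rule (Obj O))) = 0 := rfl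

theorem cat_mk (c : Obj O) (a : Obj O) (w : Multiset (Obj O × Tar)) :
    (⟨some c, a, w⟩ : Rule (Obj O)).catalyst = {c} := rfl

theorem made_cons (r : Rule (Obj O)) (U : Multiset (Rule (Obj O))) (t : Tar) :
    made (r ::ₘ U) t = r.made t + made U t := by simp [made]

theorem made_nil (t : Tar) : made (0 : Multiset (Rule (Obj O))) t = 0 := rfl

theorem mstep_step1 {M M' : Multiset O} {k k' : ℕ} (h : MStep A B (M, k) (M', k')) :
    Step1 A B (rg M) (en k) (rg M') (en k') := by
  cases h with
  | @both a b R v w _ i j hA hB =>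
    refine ⟨⟨some .c1, .ob a, rhs v i⟩ ::ₘ ⟨some .c2, .ob b, rhs w j⟩ ::ₘ 0, R.map .ob,
      ?_, ?_, ?_, ?_, ?_, ?_⟩
    · intro r hr
      simp only [Multiset.mem_cons, Multiset.notMem_zero, or_false] at hr
      rcases hr with rfl | rfl
      · exact Or.inl ⟨a, v, i, hA, rfl⟩
      · exact Or.inr ⟨b, w, j, hB, rfl⟩
    · simp only [rg, left_cons, left_nil, Multiset.map_cons, left_mk]
      simp only [← Multiset.singleton_add]
      abel
    · rintro r (⟨a', v', i', _, rfl⟩ | ⟨a', v', i', _, rfl⟩) hle
      · have : Obj.c1 ∈ R.map Obj.ob := Multiset.mem_of_le hle (by simp [left_mk])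
        simp at this
      · have : Obj.c2 ∈ R.map Obj.ob := Multiset.mem_of_le hle (by simp [left_mk])
        simp at this
    · simp only [made_cons, made_nil, made_inn, add_zero]
    · simp only [rg, cats_cons, cats_nil, made_cons, made_nil, made_here, cat_mk,
        Multiset.map_add]
      simp only [← Multiset.singleton_add]
      abel
    · simp only [en, made_cons, made_nil, made_out, Multiset.replicate_add]
      abel
  | @fst a R v _ i hA hR =>
    refine ⟨⟨some .c1, .ob a, rhs v i⟩ ::ₘ 0, .c2 ::ₘ R.map .ob, ?_, ?_, ?_, ?_, ?_, ?_⟩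
    · intro r hr
      simp only [Multiset.mem_cons, Multiset.notMem_zero, or_false] at hr
      subst hr
      exact Or.inl ⟨a, v, i, hA, rfl⟩
    · simp only [rg, left_cons, left_nil, Multiset.map_cons, left_mk]
      simp only [← Multiset.singleton_add]
      abel
    · rintro r (⟨a', v', i', _, rfl⟩ | ⟨a', v', i', h1, rfl⟩) hle
      · have : Obj.c1 ∈ Obj.c2 ::ₘ R.map Obj.ob := Multiset.mem_of_le hle (by simp [left_mk])
        simp at this
      · have : Obj.ob a' ∈ Obj.c2 ::ₘ R.map Obj.ob := Multiset.mem_of_le hle (by simp [left_mk])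
        simp only [Multiset.mem_cons, Multiset.mem_map, reduceCtorEq, Obj.ob.injEq,
          exists_eq_right, false_or] at this
        exact hR a' this _ _ h1
    · simp only [made_cons, made_nil, made_inn, add_zero]
    · simp only [rg, cats_cons, cats_nil, made_cons, made_nil, made_here, cat_mk,
        Multiset.map_add]
      simp only [← Multiset.singleton_add]
      abel
    · simp only [en, made_cons, made_nil, made_out, Multiset.replicate_add]
      abel
  | @snd b R w _ j hB hR =>
    refine ⟨⟨some .c2, .ob b, rhs w j⟩ ::ₘ 0, .c1 ::ₘ R.map .ob, ?_, ?_, ?_, ?_, ?_, ?_⟩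
    · intro r hr
      simp only [Multiset.mem_cons, Multiset.notMem_zero, or_false] at hr
      subst hr
      exact Or.inr ⟨b, w, j, hB, rfl⟩
    · simp only [rg, left_cons, left_nil, Multiset.map_cons, left_mk]
      simp only [← Multiset.singleton_add]
      abel
    · rintro r (⟨a', v', i', h1, rfl⟩ | ⟨a', v', i', _, rfl⟩) hle
      · have : Obj.ob a' ∈ Obj.c1 ::ₘ R.map Obj.ob := Multiset.mem_of_le hle (by simp [left_mk])
        simp only [Multiset.mem_cons, Multiset.mem_map, reduceCtorEq, Obj.ob.injEq,
          exists_eq_right, false_or] at this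
        exact hR a' this _ _ h1
      · have : Obj.c2 ∈ Obj.c1 ::ₘ R.map Obj.ob := Multiset.mem_of_le hle (by simp [left_mk])
        simp at this
    · simp only [made_cons, made_nil, made_inn, add_zero]
    · simp only [rg, cats_cons, cats_nil, made_cons, made_nil, made_here, cat_mk,
        Multiset.map_add]
      simp only [← Multiset.singleton_add]
      abel
    · simp only [en, made_cons, made_nil, made_out, Multiset.replicate_add]
      abel

theorem card_A {U : Multiset (Rule (Obj O))} (h : ∀ r ∈ U, r ∈ rlA A) [DecidableEq (Obj O)] :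
    Multiset.count .c1 (left U) = Multiset.card U ∧ Multiset.count .c2 (left U) = 0 := by
  induction U using Multiset.induction_on with
  | empty => simp [left_nil]
  | cons r U ih =>
    obtain ⟨h1, h2⟩ := ih fun r hr => h r (Multiset.mem_cons_of_mem hr)
    obtain ⟨a, v, i, _, rfl⟩ := h r (Multiset.mem_cons_self _ _)
    rw [left_cons, left_mk]
    refine ⟨?_, ?_⟩
    · simp [h1, Nat.add_comm]
    · simp [h2]

theorem card_B {U : Multiset (Rule (Obj O))} (h : ∀ r ∈ U, r ∈ rlB B) [DecidableEq (Obj O)] :
    Multiset.count .c2 (left U) = Multiset.card U ∧ Multiset.count .c1 (left U) = 0 := by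
  induction U using Multiset.induction_on with
  | empty => simp [left_nil]
  | cons r U ih =>
    obtain ⟨h1, h2⟩ := ih fun r hr => h r (Multiset.mem_cons_of_mem hr)
    obtain ⟨a, v, i, _, rfl⟩ := h r (Multiset.mem_cons_self _ _)
    rw [left_cons, left_mk]
    refine ⟨?_, ?_⟩
    · simp [h1, Nat.add_comm]
    · simp [h2]

theorem left_add (U V : Multiset (Rule (Obj O))) : left (U + V) = left U + left V := by
  simp [left]

theorem step1_mstep {M : Multiset O} {k : ℕ} {reg' env' : Multiset (Obj O)}
    (h : Step1 A B (rg M) (en k) reg' env') :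
    (∃ M' k', MStep A B (M, k) (M', k') ∧ reg' = rg M' ∧ env' = en k') ∨
      (reg' = rg M ∧ env' = en k) := by
  classical
  obtain ⟨U, rest, h1, h2, h3, _, h5, h6⟩ := h
  obtain ⟨Ua, Ub, rfl, ha, hb⟩ : ∃ Ua Ub, U = Ua + Ub ∧ (∀ r ∈ Ua, r ∈ rlA A) ∧
      (∀ r ∈ Ub, r ∈ rlB B) := by
    refine ⟨U.filter (· ∈ rlA A), U.filter fun r => ¬ r ∈ rlA A,
      (Multiset.filter_add_not _ _).symm, fun r hr => (Multiset.mem_filter.1 hr).2,
      fun r hr => ?_⟩
    obtain ⟨hr1, hr2⟩ := Multiset.mem_filter.1 hr
    rcases h1 r hr1 with h | h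
    · exact absurd h hr2
    · exact h
  have hca := card_A A ha
  have hcb := card_B B hb
  have n1 : Multiset.count Obj.c1 (M.map Obj.ob) = 0 := Multiset.count_eq_zero.2 (by simp)
  have n2 : Multiset.count Obj.c2 (M.map Obj.ob) = 0 := Multiset.count_eq_zero.2 (by simp)
  have hc1 : 1 = Multiset.card Ua + Multiset.count Obj.c1 rest := by
    have := congrArg (Multiset.count Obj.c1) h2
    rw [rg, left_add] at this
    simp only [Multiset.count_cons, Multiset.count_add, hca.1, hcb.2, n1, reduceCtorEq, if_true,
      if_false] at this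
    omega
  have hc2 : 1 = Multiset.card Ub + Multiset.count Obj.c2 rest := by
    have := congrArg (Multiset.count Obj.c2) h2
    rw [rg, left_add] at this
    simp only [Multiset.count_cons, Multiset.count_add, hca.2, hcb.1, n2, reduceCtorEq, if_true,
      if_false] at this
    omega
  rcases Nat.eq_zero_or_pos (Multiset.card Ua) with hza | hza
  · rw [Multiset.card_eq_zero] at hza
    subst hza
    rcases Nat.eq_zero_or_pos (Multiset.card Ub) with hzb | hzb
    · rw [Multiset.card_eq_zero] at hzb
      subst hzb
      right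
      rw [left_add, left_nil, zero_add, zero_add] at h2
      refine ⟨?_, ?_⟩
      · rw [h5, h2, add_zero, cats_nil, made_nil, add_zero, add_zero]
      · rw [h6, add_zero, made_nil, add_zero]
    · obtain ⟨r0, rfl⟩ := Multiset.card_eq_one.1 (show Multiset.card Ub = 1 by omega)
      obtain ⟨b, w, j, hB, rfl⟩ := hb r0 (Multiset.mem_singleton_self _)
      have hmem : Obj.c1 ∈ rest := by
        rw [← Multiset.count_pos]
        rw [Multiset.card_zero] at hc1
        omega
      obtain ⟨R, rfl⟩ := Multiset.exists_cons_of_mem hmem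
      have h7 : M.map Obj.ob = .ob b ::ₘ R := by
        rw [zero_add, ← Multiset.cons_zero, left_cons, left_nil, left_mk, rg] at h2
        rw [← Multiset.cons_inj_right Obj.c2, ← Multiset.cons_inj_right Obj.c1, h2]
        simp only [← Multiset.singleton_add]
        abel
      obtain ⟨b', R', h8, rfl, rfl⟩ := map_ob_cons h7
      cases h8
      left
      refine ⟨w + R', k + j, MStep.snd hB ?_, ?_, ?_⟩
      · intro o ho v i hA
        refine h3 ⟨some .c1, .ob o, rhs v i⟩ (Or.inl ⟨o, v, i, hA, rfl⟩) ?_
        rw [left_mk, Multiset.singleton_add]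
        exact Multiset.cons_le_cons _ (Multiset.singleton_le.2 (Multiset.mem_map_of_mem _ ho))
      · rw [h5, zero_add, ← Multiset.cons_zero, cats_cons, cats_nil, cat_mk, made_cons, made_nil,
          made_here, rg, Multiset.map_add]
        simp only [← Multiset.singleton_add]
        abel
      · rw [h6, zero_add, ← Multiset.cons_zero, made_cons, made_nil, made_out, en, en,
          Multiset.replicate_add, add_zero]
  · obtain ⟨ra, rfl⟩ := Multiset.card_eq_one.1 (show Multiset.card Ua = 1 by omega)
    obtain ⟨a, v, i, hA, rfl⟩ := ha ra (Multiset.mem_singleton_self _)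
    rcases Nat.eq_zero_or_pos (Multiset.card Ub) with hzb | hzb
    · rw [Multiset.card_eq_zero] at hzb
      subst hzb
      have hmem : Obj.c2 ∈ rest := by
        rw [← Multiset.count_pos]
        rw [Multiset.card_zero] at hc2
        omega
      obtain ⟨R, rfl⟩ := Multiset.exists_cons_of_mem hmem
      have h7 : M.map Obj.ob = .ob a ::ₘ R := by
        rw [add_zero, ← Multiset.cons_zero, left_cons, left_nil, left_mk, rg] at h2
        rw [← Multiset.cons_inj_right Obj.c2, ← Multiset.cons_inj_right Obj.c1, h2]
        simp only [← Multiset.singleton_add]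
        abel
      obtain ⟨a', R', h8, rfl, rfl⟩ := map_ob_cons h7
      cases h8
      left
      refine ⟨v + R', k + i, MStep.fst hA ?_, ?_, ?_⟩
      · intro o ho w j hB
        refine h3 ⟨some .c2, .ob o, rhs w j⟩ (Or.inr ⟨o, w, j, hB, rfl⟩) ?_
        rw [left_mk, Multiset.singleton_add]
        exact Multiset.cons_le_cons _ (Multiset.singleton_le.2 (Multiset.mem_map_of_mem _ ho))
      · rw [h5, add_zero, ← Multiset.cons_zero, cats_cons, cats_nil, cat_mk, made_cons, made_nil,
          made_here, rg, Multiset.map_add]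
        simp only [← Multiset.singleton_add]
        abel
      · rw [h6, add_zero, ← Multiset.cons_zero, made_cons, made_nil, made_out, en, en,
          Multiset.replicate_add, add_zero]
    · obtain ⟨rb, rfl⟩ := Multiset.card_eq_one.1 (show Multiset.card Ub = 1 by omega)
      obtain ⟨b, w, j, hB, rfl⟩ := hb rb (Multiset.mem_singleton_self _)
      have h7 : M.map Obj.ob = .ob a ::ₘ .ob b ::ₘ rest := by
        rw [← Multiset.cons_zero, ← Multiset.cons_zero, left_add, left_cons, left_cons, left_nil,
          left_mk, left_mk, rg] at h2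
        rw [← Multiset.cons_inj_right Obj.c2, ← Multiset.cons_inj_right Obj.c1, h2]
        simp only [← Multiset.singleton_add]
        abel
      obtain ⟨a', R1, h8, rfl, h9⟩ := map_ob_cons h7
      cases h8
      obtain ⟨b', R2, h10, rfl, rfl⟩ := map_ob_cons h9.symm
      cases h10
      left
      refine ⟨v + w + R2, k + i + j, MStep.both hA hB, ?_, ?_⟩
      · rw [h5, ← Multiset.cons_zero, ← Multiset.cons_zero, Multiset.cons_add, zero_add, cats_cons,
          cats_cons, cats_nil, cat_mk, cat_mk, made_cons, made_cons, made_nil,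
          made_here, made_here, rg, Multiset.map_add, Multiset.map_add]
        simp only [← Multiset.singleton_add]
        abel
      · rw [h6, ← Multiset.cons_zero, ← Multiset.cons_zero, Multiset.cons_add, zero_add, made_cons,
          made_cons, made_nil, made_out, made_out, en, en,
          Multiset.replicate_add, Multiset.replicate_add, add_zero, add_assoc]

theorem halt_link (M : Multiset O) :
    (∀ r ∈ rlA A ∪ rlB B, ¬ r.left ≤ rg M) ↔ MHalt A B M := by
  constructor
  · intro h o ho v i
    refine ⟨fun hA => ?_, fun hB => ?_⟩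
    · refine h ⟨some .c1, .ob o, rhs v i⟩ (Or.inl ⟨o, v, i, hA, rfl⟩) ?_
      rw [left_mk, Multiset.singleton_add]
      exact Multiset.cons_le_cons _ (Multiset.singleton_le.2
        (Multiset.mem_cons_of_mem (Multiset.mem_map_of_mem _ ho)))
    · refine h ⟨some .c2, .ob o, rhs v i⟩ (Or.inr ⟨o, v, i, hB, rfl⟩) ?_
      rw [left_mk, Multiset.singleton_add, rg, Multiset.cons_swap]
      exact Multiset.cons_le_cons _ (Multiset.singleton_le.2
        (Multiset.mem_cons_of_mem (Multiset.mem_map_of_mem _ ho)))
  · rintro h r (⟨a, v, i, h1, rfl⟩ | ⟨a, v, i, h1, rfl⟩) hle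
    · have : Obj.ob a ∈ rg M := Multiset.mem_of_le hle (by simp [left_mk])
      simp only [rg, Multiset.mem_cons, Multiset.mem_map, reduceCtorEq, Obj.ob.injEq,
        exists_eq_right, false_or] at this
      exact (h a this v i).1 h1
    · have : Obj.ob a ∈ rg M := Multiset.mem_of_le hle (by simp [left_mk])
      simp only [rg, Multiset.mem_cons, Multiset.mem_map, reduceCtorEq, Obj.ob.injEq,
        exists_eq_right, false_or] at this
      exact (h a this v i).2 h1

/-- the configuration of the P system -/
def mkc [Finite O] (hA : (rlA A).Finite) (hB : (rlB B).Finite) (M0 : Multiset O)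
    (X : Multiset O × ℕ) : (psys A B hA hB M0).Config := ⟨fun _ => rg X.1, en X.2⟩

theorem cfg_ext [Finite O] (hA : (rlA A).Finite) (hB : (rlB B).Finite) (M0 : Multiset O)
    {Δ : (psys A B hA hB M0).Config} {X : Multiset O × ℕ} (h1 : Δ.reg () = rg X.1)
    (h2 : Δ.env = en X.2) : Δ = mkc A B hA hB M0 X := by
  obtain ⟨r, e⟩ := Δ
  have h3 : r = fun _ => rg X.1 := funext fun _ => h1
  have h4 : e = en X.2 := h2
  rw [h3, h4]
  rfl

/-- the results of the P system -/
theorem psys_N [Finite O] (hA : (rlA A).Finite) (hB : (rlB B).Finite) (M0 : Multiset O) :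
    (psys A B hA hB M0).N = {n | ∃ X : Multiset O × ℕ,
      Relation.ReflTransGen (MStep A B) (M0, 0) X ∧ MHalt A B X.1 ∧ X.2 = n} := by
  have hhalt : ∀ X, (psys A B hA hB M0).Halting (mkc A B hA hB M0 X) ↔ MHalt A B X.1 := by
    intro X
    rw [← halt_link]
    constructor
    · intro h r hr
      exact h () r ⟨hr, fun h => absurd h (no_inn A B hr)⟩
    · intro h _ r hr
      exact h r hr.1
  have hval : ∀ X, (psys A B hA hB M0).value (mkc A B hA hB M0 X) = X.2 := by
    intro X
    show Multiset.card (en X.2 : Multiset (Obj O)) = X.2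
    simp [en]
  ext n
  constructor
  · rintro ⟨H, h1, h2, h3⟩
    have key : ∃ X, H = mkc A B hA hB M0 X ∧ Relation.ReflTransGen (MStep A B) (M0, 0) X := by
      clear h2 h3
      induction h1 with
      | refl => exact ⟨(M0, 0), rfl, Relation.ReflTransGen.refl⟩
      | @tail Γ Δ _ h4 ih =>
        obtain ⟨⟨M, k⟩, rfl, h5⟩ := ih
        rw [step1_iff] at h4
        rcases step1_mstep A B h4 with ⟨M', k', h6, h7, h8⟩ | ⟨h7, h8⟩
        · refine ⟨(M', k'), ?_, h5.tail h6⟩
          exact cfg_ext A B hA hB M0 h7 h8
        · refine ⟨(M, k), ?_, h5⟩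
          exact cfg_ext A B hA hB M0 h7 h8
    obtain ⟨X, rfl, h4⟩ := key
    exact ⟨X, h4, (hhalt X).1 h2, by rw [← h3, hval]⟩
  · rintro ⟨X, h1, h2, rfl⟩
    refine ⟨mkc A B hA hB M0 X, ?_, (hhalt X).2 h2, hval X⟩
    have hs : (psys A B hA hB M0).start = mkc A B hA hB M0 (M0, 0) := rfl
    rw [hs]
    clear h2
    induction h1 with
    | refl => exact Relation.ReflTransGen.refl
    | @tail Y Z _ h3 ih =>
      refine ih.tail ?_
      rw [step1_iff]
      exact mstep_step1 A B (M := Y.1) (k := Y.2) (M' := Z.1) (k' := Z.2) h3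

end Link

/-! ## The rules are finitely many -/

instance finite_ct : Finite Ct := by
  refine Finite.of_surjective (fun i : Fin 20 => (![.rd, .cD, .d, .e, .f, .w4, .w3, .w2, .w1, .w,
    .h, .h3, .h2, .h1, .v1, .v2, .v3, .v4, .v5, .v6] i : Ct)) ?_
  intro c
  cases c
  exacts [⟨0, rfl⟩, ⟨1, rfl⟩, ⟨2, rfl⟩, ⟨3, rfl⟩, ⟨4, rfl⟩, ⟨5, rfl⟩, ⟨6, rfl⟩, ⟨7, rfl⟩, ⟨8, rfl⟩,
    ⟨9, rfl⟩, ⟨10, rfl⟩, ⟨11, rfl⟩, ⟨12, rfl⟩, ⟨13, rfl⟩, ⟨14, rfl⟩, ⟨15, rfl⟩, ⟨16, rfl⟩,
    ⟨17, rfl⟩, ⟨18, rfl⟩, ⟨19, rfl⟩]

instance finite_nc : Finite Nc := by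
  refine Finite.of_surjective (fun i : Fin 23 => (![.x, .q, .y, .x1, .q1, .q2, .q3, .r1, .r2, .r3,
    .r4, .y1, .y2, .y3, .z1, .z2, .z3, .z4, .a1, .a2, .a3, .a4, .g] i : Nc)) ?_
  intro c
  cases c
  exacts [⟨0, rfl⟩, ⟨1, rfl⟩, ⟨2, rfl⟩, ⟨3, rfl⟩, ⟨4, rfl⟩, ⟨5, rfl⟩, ⟨6, rfl⟩, ⟨7, rfl⟩, ⟨8, rfl⟩,
    ⟨9, rfl⟩, ⟨10, rfl⟩, ⟨11, rfl⟩, ⟨12, rfl⟩, ⟨13, rfl⟩, ⟨14, rfl⟩, ⟨15, rfl⟩, ⟨16, rfl⟩,
    ⟨17, rfl⟩, ⟨18, rfl⟩, ⟨19, rfl⟩, ⟨20, rfl⟩, ⟨21, rfl⟩, ⟨22, rfl⟩]

variable {S : Type} [Finite S]

instance finite_ob : Finite (Ob S) := by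
  have : Function.Injective (fun p : Ob S => match p with
      | .trap => (Sum.inl () : Unit ⊕ Nc ⊕ (Ct × S))
      | .n a => Sum.inr (Sum.inl a)
      | .c k s => Sum.inr (Sum.inr (k, s))) := by
    intro p q h
    cases p <;> cases q <;> simp_all
  exact Finite.of_injective _ this

/-- the objects produced by a control move -/
def exf (P : Prog S) : Ct → S → Option (Ct × S) → Multiset Nc
  | .rd, _, some (.w4, _) => {.a4}
  | .cD, _, _ => {.g}
  | .f, s, _ => Multiset.replicate (P.kk s) .q
  | .w, _, _ => {.a4}
  | _, _, _ => 0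

/-- the output of a control move -/
def otf (P : Prog S) : Ct → S → ℕ
  | .v6, s => P.out s
  | _, _ => 0

omit [Finite S] in
theorem ct_eq (P : Prog S) {k : Ct} {s : S} {c' : Option (Ct × S)} {ex : Multiset Nc} {i : ℕ}
    (h : CT P k s c' ex i) : ex = exf P k s c' ∧ i = otf P k s := by
  cases h <;> exact ⟨rfl, rfl⟩

theorem rules_finite (P : Prog S) {l : Nc → Option (Option Nc)} {c : Obj (Ob S)}
    {R : Ob S → Multiset (Ob S) → ℕ → Prop}
    (hR : ∀ a v i, R a v i → (v = {.trap} ∧ i = 0) ∨
      (∃ b p, a = .n b ∧ l b = some p ∧ v = (pm p).map .n ∧ i = 0) ∨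
      ∃ k s c' ex, a = .c k s ∧ CT P k s c' ex i ∧ v = ctm c' + ex.map .n) :
    {r : Rule (Obj (Ob S)) | ∃ a v i, R a v i ∧ r = ⟨some c, .ob a, rhs v i⟩}.Finite := by
  have h1 := Set.finite_range fun a : Ob S =>
    (⟨some c, .ob a, rhs {.trap} 0⟩ : Rule (Obj (Ob S)))
  have h2 := Set.finite_range fun b : Nc =>
    (⟨some c, .ob (.n b), rhs ((pm ((l b).getD none)).map .n) 0⟩ : Rule (Obj (Ob S)))
  have h3 := Set.finite_range fun t : Ct × S × Option (Ct × S) =>
    (⟨some c, .ob (.c t.1 t.2.1), rhs (ctm t.2.2 + (exf P t.1 t.2.1 t.2.2).map .n)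
      (otf P t.1 t.2.1)⟩ : Rule (Obj (Ob S)))
  refine (h1.union (h2.union h3)).subset ?_
  rintro r ⟨a, v, i, h, rfl⟩
  rcases hR a v i h with ⟨rfl, rfl⟩ | ⟨b, p, rfl, h4, rfl, rfl⟩ | ⟨k, s, c', ex, rfl, h4, rfl⟩
  · exact Or.inl ⟨a, rfl⟩
  · refine Or.inr (Or.inl ⟨b, ?_⟩)
    simp only [h4, Option.getD_some]
  · obtain ⟨rfl, rfl⟩ := ct_eq P h4
    exact Or.inr (Or.inr ⟨(k, s, c'), rfl⟩)

theorem finA (P : Prog S) : (rlA (RA P)).Finite := by
  refine rules_finite P (l := lA) ?_
  rintro (_ | b | ⟨k, s⟩) v i h
  · exact Or.inl h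
  · rcases h with ⟨⟨p, h1, h2⟩ | ⟨_, h2⟩, h3⟩
    · exact Or.inr (Or.inl ⟨b, p, rfl, h1, h2, h3⟩)
    · exact Or.inl ⟨h2, h3⟩
  · rcases h with h | ⟨_, c', ex, h1, h2⟩
    · exact Or.inl h
    · exact Or.inr (Or.inr ⟨k, s, c', ex, rfl, h1, h2⟩)

theorem finB (P : Prog S) : (rlB (RB P)).Finite := by
  refine rules_finite P (l := lB) ?_
  rintro (_ | b | ⟨k, s⟩) v i h
  · exact Or.inl h
  · rcases h with ⟨⟨p, h1, h2⟩ | ⟨_, h2⟩, h3⟩
    · exact Or.inr (Or.inl ⟨b, p, rfl, h1, h2, h3⟩)
    · exact Or.inl ⟨h2, h3⟩
  · rcases h with h | ⟨_, c', ex, h1, h2⟩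
    · exact Or.inl h
    · exact Or.inr (Or.inr ⟨k, s, c', ex, rfl, h1, h2⟩)

omit [Finite S] in
theorem countP_init (p : Obj (Ob S) → Prop) [DecidablePred p] (h1 : p .c1) (h2 : p .c2)
    (h3 : ∀ o, ¬ p (.ob o)) (M : Multiset (Ob S)) :
    (Obj.c1 ::ₘ Obj.c2 ::ₘ M.map Obj.ob).countP p = 2 := by
  rw [Multiset.countP_cons_of_pos _ h1, Multiset.countP_cons_of_pos _ h2,
    Multiset.countP_eq_zero.2]
  intro o ho
  obtain ⟨o', _, rfl⟩ := Multiset.mem_map.1 ho
  exact h3 o'

/-- **Main theorem.** Every recursively enumerable set of natural numbers is generated by a purely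
catalytic P system with one membrane and two catalysts (two catalyst symbols, each of which occurs
once). -/
theorem result (S' : Set ℕ) (hS : REPred fun n => n ∈ S') :
    ∃ P : PSystem, P.PurelyCatalytic ∧ P.degree = 1 ∧ P.Cat.ncard = 2 ∧ P.numCat = 2 ∧
      P.N = S' := by
  classical
  obtain ⟨S, _, P, h1, h2⟩ := exists_reader S' hS
  refine ⟨psys (RA P) (RB P) (finA P) (finB P) (toM (some (.rd, P.start), T P.x0 0, 0)).1,
    ?_, ?_, ?_, ?_, ?_⟩
  · rintro _ r (⟨a, v, i, _, rfl⟩ | ⟨a, v, i, _, rfl⟩) <;> exact Option.some_ne_none _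
  · show Fintype.card Unit = 1
    simp
  · show ({Obj.c1, Obj.c2} : Set (Obj (Ob S))).ncard = 2
    rw [Set.ncard_pair (by simp)]
  · show (∑ _h : Unit, @Multiset.countP (Obj (Ob S)) (· ∈ ({Obj.c1, Obj.c2} : Set (Obj (Ob S))))
      (fun _ => Classical.propDecidable _)
      (.c1 ::ₘ .c2 ::ₘ (toM (some (.rd, P.start), T P.x0 0, 0)).1.map .ob)) = 2
    rw [Fintype.sum_unique]
    exact @countP_init S (· ∈ ({Obj.c1, Obj.c2} : Set (Obj (Ob S))))
      (fun _ => Classical.propDecidable _) (by simp) (by simp) (by simp) _
  · rw [psys_N]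
    ext n
    exact (results_iff P S' h1 h2 n).symm

end Pool.Agent.Results.MP_1dfda1_lc.TwoCatalystsUniversal
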